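import Pool.Agent.N615.TF.One0
import Pool.Agent.N874.TF.Stm

/-!
# TC/ONE (project of helper874): `S_ONE` (helper615)
-/

set_option autoImplicit false

namespace Pool.Agent.N615.TF

theorem one : Pool.Agent.N874.TC.S_ONE :=
  fun g f h hf hd hpos hsq hcop hN => one0 g f h hf hd hpos hsq hcop hN

end Pool.Agent.N615.TF
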