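import Mathlib

/-!
# Real classes with square norm are trivial if the derivative is positive (helper615)
-/

set_option autoImplicit false

open Polynomial

namespace Pool.Agent.N615.TF

/-- modulo an irreducible polynomial a polynomial which is nonnegative at the real zeros is a square -/
theorem sq_irr {p h : ℝ[X]} (hp : Irreducible p) (h0 : ∀ r : ℝ, p.eval r = 0 → 0 ≤ h.eval r) :
    ∃ s : ℝ[X], p ∣ h - s ^ 2 := by
  obtain ⟨z, hz⟩ := IsAlgClosed.exists_aeval_eq_zero ℂ p (degree_pos_of_irreducible hp).ne'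
  have key : ∀ s : ℝ[X], aeval z (h - s ^ 2) = 0 → p ∣ h - s ^ 2 := by
    intro s hs
    rcases EuclideanDomain.dvd_or_coprime p (h - s ^ 2) hp with h1 | ⟨a, b, h1⟩
    · exact h1
    · have h2 := congrArg (aeval z) h1
      rw [map_add, map_mul, map_mul, hz, hs, mul_zero, mul_zero, add_zero, map_one] at h2
      exact absurd h2 zero_ne_one
  by_cases hzi : z.im = 0
  · obtain ⟨r, hr⟩ : ∃ r : ℝ, z = algebraMap ℝ ℂ r := ⟨z.re, by
      apply Complex.ext
      · simp
      · simpa using hzi⟩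
    have h1 : p.eval r = 0 := by
      rw [hr, aeval_algebraMap_apply] at hz
      have h2 := (map_eq_zero (algebraMap ℝ ℂ)).1 hz
      rwa [coe_aeval_eq_eval] at h2
    have h2 := h0 _ h1
    refine ⟨C (Real.sqrt (h.eval r)), key _ ?_⟩
    rw [hr, aeval_algebraMap_apply, coe_aeval_eq_eval, eval_sub, eval_pow, eval_C, Real.sq_sqrt h2,
      sub_self, map_zero]
  · obtain ⟨w, hw⟩ := IsAlgClosed.exists_pow_nat_eq (aeval z h) (n := 2) (by norm_num)
    obtain ⟨b, hb⟩ : ∃ b : ℝ, b = w.im / z.im := ⟨_, rfl⟩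
    refine ⟨C (w.re - b * z.re) + C b * X, key _ ?_⟩
    have h1 : aeval z (C (w.re - b * z.re) + C b * X : ℝ[X]) = w := by
      rw [map_add, map_mul, aeval_C, aeval_C, aeval_X]
      apply Complex.ext
      · simp
      · have h2 : b * z.im = w.im := by
          rw [hb, div_mul_cancel₀ _ hzi]
        simpa using h2
    rw [map_sub, map_pow, h1, hw, sub_self]

/-- modulo a squarefree polynomial -/
theorem sq_sqf (h : ℝ[X]) : ∀ f : ℝ[X], f ≠ 0 → Squarefree f →
    (∀ r : ℝ, f.eval r = 0 → 0 ≤ h.eval r) → ∃ s : ℝ[X], f ∣ h - s ^ 2 := by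
  intro f
  refine WfDvdMonoid.induction_on_irreducible f ?_ ?_ ?_
  · intro h0
    exact absurd rfl h0
  · intro u hu _ _ _
    exact ⟨0, hu.dvd⟩
  · intro a p ha hp ih _ hsq h0
    have hna : Squarefree a := hsq.squarefree_of_dvd (dvd_mul_left a p)
    obtain ⟨s, hs⟩ := ih ha hna fun r hr => h0 r (by rw [eval_mul, hr, mul_zero])
    obtain ⟨t, ht⟩ := sq_irr hp fun r hr => h0 r (by rw [eval_mul, hr, zero_mul])
    have hcop : IsCoprime p a := by
      rcases EuclideanDomain.dvd_or_coprime p a hp with h1 | h1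
      · exact absurd (hsq p (mul_dvd_mul_left p h1)) hp.not_isUnit
      · exact h1
    obtain ⟨c, d, hcd⟩ := hcop
    -- `w = t` modulo `p` and `w = s` modulo `a`
    refine ⟨d * a * t + c * p * s, IsCoprime.mul_dvd ⟨c, d, hcd⟩ ?_ ?_⟩
    · have h1 : h - (d * a * t + c * p * s) ^ 2 =
          (h - t ^ 2) + (t - (d * a * t + c * p * s)) * (t + (d * a * t + c * p * s)) := by ring
      have h2 : t - (d * a * t + c * p * s) = p * (c * (t - s)) := by
        linear_combination (-t) * hcd
      rw [h1, h2]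
      exact dvd_add ht (Dvd.intro _ (by ring : p * (c * (t - s) * (t + (d * a * t + c * p * s))) = _))
    · have h1 : h - (d * a * t + c * p * s) ^ 2 =
          (h - s ^ 2) + (s - (d * a * t + c * p * s)) * (s + (d * a * t + c * p * s)) := by ring
      have h2 : s - (d * a * t + c * p * s) = a * (d * (s - t)) := by
        linear_combination (-s) * hcd
      rw [h1, h2]
      exact dvd_add hs (Dvd.intro _ (by ring : a * (d * (s - t) * (s + (d * a * t + c * p * s))) = _))

theorem one0 (g : ℕ) (f h : ℝ[X]) (hf : f.Monic) (hd : f.natDegree = 2 * g + 1)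
    (hpos : ∀ x : ℝ, 0 < (derivative f).eval x) (hsq : Squarefree f) (hcop : IsCoprime h f)
    (hN : IsSquare (Algebra.norm ℝ (AdjoinRoot.mk f h))) : ∃ s : ℝ[X], f ∣ h - s ^ 2 := by
  by_cases hr : ∀ r : ℝ, f.eval r = 0 → 0 ≤ h.eval r
  · exact sq_sqf h f hf.ne_zero hsq hr
  · push Not at hr
    obtain ⟨r, hr0, hr1⟩ := hr
    have hmono : StrictMono fun x => f.eval x := by
      refine strictMono_of_deriv_pos fun x => ?_
      rw [Polynomial.deriv]
      exact hpos x
    obtain ⟨s, hs⟩ := sq_sqf (-h) f hf.ne_zero hsq fun x hx => by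
      have h1 : x = r := hmono.injective (by rw [hx, hr0])
      rw [h1, eval_neg]
      linarith
    exfalso
    obtain ⟨N, hNe⟩ : ∃ N, N = Algebra.norm ℝ (AdjoinRoot.mk f h) := ⟨_, rfl⟩
    have h1 : Algebra.norm ℝ (AdjoinRoot.mk f (-h)) = -N := by
      have h2 : AdjoinRoot.mk f (-h) = algebraMap ℝ (AdjoinRoot f) (-1) * AdjoinRoot.mk f h := by
        rw [map_neg, map_neg, map_one, neg_one_mul]
      rw [h2, map_mul, ← hNe, Algebra.norm_algebraMap_of_basis (AdjoinRoot.powerBasis' hf).basis,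
        Fintype.card_fin, AdjoinRoot.powerBasis'_dim, hd, Odd.neg_one_pow ⟨g, rfl⟩, neg_one_mul]
    have h2 : AdjoinRoot.mk f (-h) = AdjoinRoot.mk f s ^ 2 := by
      rw [← map_pow]
      exact AdjoinRoot.mk_eq_mk.2 hs
    rw [h2, map_pow] at h1
    rw [← hNe] at hN
    obtain ⟨a, ha⟩ := hN
    have h3 : N = 0 := by nlinarith [sq_nonneg (Algebra.norm ℝ (AdjoinRoot.mk f s)), mul_self_nonneg a]
    obtain ⟨c, d, hcd⟩ := hcop
    have h4 : AdjoinRoot.mk f c * AdjoinRoot.mk f h = 1 := by
      have h5 := congrArg (AdjoinRoot.mk f) hcd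
      rwa [map_add, map_mul, map_mul, AdjoinRoot.mk_self, mul_zero, add_zero, map_one] at h5
    have h5 := congrArg (Algebra.norm ℝ) h4
    rw [map_mul, ← hNe, h3, mul_zero, map_one] at h5
    exact zero_ne_one h5

end Pool.Agent.N615.TF
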